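import Pool.Agent.helper62.RS.SpecQ
import Pool.Agent.helper62.QU.All

/-!
# Row rs:QEQ (MP_07c750_an): equidistribution on average of the pieces of orbits which start on a horocycle
-/

set_option autoImplicit false

open scoped MatrixGroups ContDiff Topology UpperHalfPlane ComplexConjugate
open UpperHalfPlane MeasureTheory Filter Set

namespace Pool.Agent.RS

theorem QEQ_cont (hGLC : GLC_stmt) (g : SL(2, ℝ)) {u : SL(2, ℝ) → ℝ} (hu : Continuous u) :
    Continuous fun p : ℝ × ℝ => u (g * lM p.1 * aM p.2) := by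
  obtain ⟨-, -, -, ha, -, hl, -⟩ := hGLC
  exact hu.comp ((continuous_const.mul (hl.comp continuous_fst)).mul (ha.comp continuous_snd))

theorem QEQ_one (hGLC : GLC_stmt) (g : SL(2, ℝ)) {u : SL(2, ℝ) → ℝ} (hu : Continuous u) (v : ℝ) :
    Continuous fun t : ℝ => u (g * lM v * aM t) := by
  obtain ⟨-, -, -, ha, -⟩ := hGLC
  exact hu.comp (continuous_const.mul ha)

theorem QEQ_in (hGLC : GLC_stmt) (g : SL(2, ℝ)) {u : SL(2, ℝ) → ℝ} (hu : Continuous u) (τ : ℝ) :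
    Continuous fun v : ℝ => ∫ t in (0 : ℝ)..τ, u (g * lM v * aM t) :=
  intervalIntegral.continuous_parametric_intervalIntegral_of_continuous' (QEQ_cont hGLC g hu) 0 τ

theorem QEQ_add (hGLC : GLC_stmt) (τ : ℝ) (g : SL(2, ℝ)) {u w : SL(2, ℝ) → ℝ} (hu : Continuous u)
    (hw : Continuous w) : AV τ g (fun k => u k + w k) = AV τ g u + AV τ g w := by
  unfold AV
  rw [← intervalIntegral.integral_add]
  · refine intervalIntegral.integral_congr fun v _ => ?_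
    have h1 : ∫ t in (0 : ℝ)..τ, (u (g * lM v * aM t) + w (g * lM v * aM t)) =
        (∫ t in (0 : ℝ)..τ, u (g * lM v * aM t)) + ∫ t in (0 : ℝ)..τ, w (g * lM v * aM t) :=
      intervalIntegral.integral_add ((QEQ_one hGLC g hu v).intervalIntegrable _ _)
        ((QEQ_one hGLC g hw v).intervalIntegrable _ _)
    show τ⁻¹ * (∫ t in (0 : ℝ)..τ, (u (g * lM v * aM t) + w (g * lM v * aM t))) = _
    rw [h1, mul_add]
  · exact (continuous_const.mul (QEQ_in hGLC g hu τ)).intervalIntegrable _ _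
  · exact (continuous_const.mul (QEQ_in hGLC g hw τ)).intervalIntegrable _ _

theorem QEQ_mul (τ c : ℝ) (g : SL(2, ℝ)) (u : SL(2, ℝ) → ℝ) : AV τ g (fun k => c * u k) = c * AV τ g u := by
  unfold AV
  rw [← intervalIntegral.integral_const_mul]
  refine intervalIntegral.integral_congr fun v _ => ?_
  show τ⁻¹ * (∫ t in (0 : ℝ)..τ, c * u (g * lM v * aM t)) = c * (τ⁻¹ * ∫ t in (0 : ℝ)..τ, u (g * lM v * aM t))
  rw [intervalIntegral.integral_const_mul]
  ring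

theorem QEQ_bound (τ m : ℝ) (hτ : 0 < τ) (g : SL(2, ℝ)) (u : SL(2, ℝ) → ℝ) (hm : ∀ k, |u k| ≤ m) :
    |AV τ g u| ≤ m := by
  unfold AV
  have h1 : ∀ v : ℝ, ‖τ⁻¹ * ∫ t in (0 : ℝ)..τ, u (g * lM v * aM t)‖ ≤ m := by
    intro v
    have h2 : ‖∫ t in (0 : ℝ)..τ, u (g * lM v * aM t)‖ ≤ m * |τ - 0| :=
      intervalIntegral.norm_integral_le_of_norm_le_const fun t _ => hm _
    rw [sub_zero, abs_of_pos hτ] at h2
    rw [norm_mul, norm_inv, Real.norm_of_nonneg hτ.le, inv_mul_le_iff₀ hτ]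
    linarith
  have h3 := intervalIntegral.norm_integral_le_of_norm_le_const (a := 0) (b := 1) (C := m)
    (f := fun v : ℝ => τ⁻¹ * ∫ t in (0 : ℝ)..τ, u (g * lM v * aM t)) fun v _ => h1 v
  rw [sub_zero, abs_one, mul_one] at h3
  exact h3

theorem QEQ_const (τ : ℝ) (hτ : 0 < τ) (g : SL(2, ℝ)) : AV τ g (fun _ => (1 : ℝ)) = 1 := by
  unfold AV
  rw [intervalIntegral.integral_const, intervalIntegral.integral_const]
  simp only [sub_zero, smul_eq_mul, mul_one, one_mul]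
  exact inv_mul_cancel₀ hτ.ne'

theorem QEQ_zero (x : ℕ → ℝ) (τ : ℕ → ℝ) (c l : ℝ) (hτ : ∀ n : ℕ, (n : ℝ) + 1 ≤ τ n)
    (hx : Tendsto x (hyperfilter ℕ : Filter ℕ) (𝓝 l)) (h : ∀ n, |x n| ≤ c / τ n) : l = 0 := by
  have h1 : Tendsto τ atTop atTop :=
    tendsto_atTop_mono hτ (tendsto_atTop_add_const_right _ 1 tendsto_natCast_atTop_atTop)
  have h2 : Tendsto (fun n => c / τ n) (hyperfilter ℕ : Filter ℕ) (𝓝 0) :=
    (h1.const_div_atTop c).mono_left Nat.hyperfilter_le_atTop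
  have h3 : Tendsto x (hyperfilter ℕ : Filter ℕ) (𝓝 0) := squeeze_zero_norm h h2
  exact tendsto_nhds_unique hx h3

theorem QEQ (hGLC : GLC_stmt) (hGBD : GBD_stmt) (hQDV : QDV_stmt) (hQZD : QZD_stmt) : QEQ_stmt := by
  intro Γ F h ε hΓ hF hh hε
  by_contra hcon
  push Not at hcon
  have hex : ∀ n : ℕ, ∃ (τ : ℝ) (g : SL(2, ℝ)), (n : ℝ) + 1 ≤ τ ∧
      (∫ z in F, h z) / (volume F).toReal + ε < AV τ g (fun k => h (k • I)) :=
    fun n => hcon ((n : ℝ) + 1) (by positivity)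
  choose τ g hτ hbig using hex
  have hτ0 : ∀ n, 0 < τ n := fun n => lt_of_lt_of_le (by positivity) (hτ n)
  have hI : Continuous fun k : SL(2, ℝ) => (k • I : ℍ) := isProperMap_smul_I.continuous
  -- the limit functional
  obtain ⟨α, hα⟩ : ∃ α : (ℍ → ℝ) → ℝ, ∀ f, QU.Inv Γ f →
      Tendsto (fun n => AV (τ n) (g n) (fun k => f (k • I))) (hyperfilter ℕ : Filter ℕ) (𝓝 (α f)) := by
    refine ⟨fun f => limUnder (hyperfilter ℕ : Filter ℕ) fun n => AV (τ n) (g n) (fun k => f (k • I)), ?_⟩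
    intro f hf
    obtain ⟨⟨m, hm⟩, -⟩ := QU.A_BDD Γ F f hΓ hF hf
    exact tendsto_nhds_limUnder (QU.KLI_ulim _ m fun n => QEQ_bound _ _ (hτ0 n) _ _ fun k => hm _)
  have hBF : QU.BFun Γ α := by
    refine ⟨?_, ?_, 1, ?_⟩
    · intro f f' hf hf'
      have hs : QU.Inv Γ (fun z => f z + f' z) :=
        ⟨hf.1.add hf'.1, fun γ z => by simp only [hf.2, hf'.2]⟩
      refine tendsto_nhds_unique (hα _ hs) ?_
      have h1 := (hα f hf).add (hα f' hf')
      refine h1.congr fun n => ?_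
      exact (QEQ_add hGLC (τ n) (g n) (hf.1.comp hI) (hf'.1.comp hI)).symm
    · intro c f hf
      have hs : QU.Inv Γ (fun z => c * f z) :=
        ⟨continuous_const.mul hf.1, fun γ z => by simp only [hf.2]⟩
      refine tendsto_nhds_unique (hα _ hs) ?_
      have h1 := (hα f hf).const_mul c
      refine h1.congr fun n => ?_
      exact (QEQ_mul (τ n) c (g n) (fun k => f (k • I))).symm
    · intro f m hf hm
      rw [one_mul]
      refine le_of_tendsto ((hα f hf).abs) (Filter.Eventually.of_forall fun n => ?_)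
      exact QEQ_bound _ _ (hτ0 n) _ _ fun k => hm _
  have hone : QU.Inv Γ (fun _ => (1 : ℝ)) := ⟨continuous_const, fun _ _ => rfl⟩
  have hα1 : α (fun _ => (1 : ℝ)) = 1 := by
    refine tendsto_nhds_unique (hα _ hone) ?_
    refine tendsto_const_nhds.congr fun n => ?_
    exact (QEQ_const (τ n) (hτ0 n) (g n)).symm
  have hlap : ∀ (κ : ℝ → ℝ) (f : ℍ → ℝ), QU.RK κ → QU.Inv Γ f → α (QU.lap (QU.conv κ f)) = 0 := by
    intro κ f hκ hf
    have hCD : QU.CD 2 (QU.conv κ f) := (QU.A_CVS ℝ κ f hκ hf.1).1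
    have hcinv : QU.Inv Γ (QU.conv κ f) := (QU.A_CVB ℝ).2.2.2.2.2.2.2 Γ κ f hκ hf
    have hlapeq : QU.lap (QU.conv κ f) = QU.conv (QU.LL κ) f :=
      funext fun z => (QU.A_CVS ℝ κ f hκ hf.1).2.2.2 z
    have hlinv : QU.Inv Γ (QU.lap (QU.conv κ f)) := by
      rw [hlapeq]
      exact (QU.A_CVB ℝ).2.2.2.2.2.2.2 Γ (QU.LL κ) f (QU.A_LAK.2.2.2.1 κ hκ) hf
    obtain ⟨A1, A2, L1, L2, iA1, iA2, iL1, iL2, iu, dA1, dA2, dL1, dL2, hid⟩ := hQDV Γ (QU.conv κ f) hΓ hcinv hCD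
    obtain ⟨m0, hm0⟩ := (hGBD Γ ℝ _ hΓ iu).1
    obtain ⟨m1, hm1⟩ := (hGBD Γ ℝ _ hΓ iA1).1
    obtain ⟨m2, hm2⟩ := (hGBD Γ ℝ _ hΓ iA2).1
    obtain ⟨m3, hm3⟩ := (hGBD Γ ℝ _ hΓ iL1).1
    obtain ⟨m4, hm4⟩ := (hGBD Γ ℝ _ hΓ iL2).1
    obtain ⟨m, e0, e1, e2, e3, e4⟩ : ∃ m : ℝ, m0 ≤ m ∧ m1 ≤ m ∧ m2 ≤ m ∧ m3 ≤ m ∧ m4 ≤ m :=
      ⟨max m0 (max m1 (max m2 (max m3 m4))), le_max_left _ _,
        (le_max_left _ _).trans (le_max_right _ _),
        ((le_max_left _ _).trans (le_max_right _ _)).trans (le_max_right _ _),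
        (((le_max_left _ _).trans (le_max_right _ _)).trans (le_max_right _ _)).trans (le_max_right _ _),
        (((le_max_right _ _).trans (le_max_right _ _)).trans (le_max_right _ _)).trans (le_max_right _ _)⟩
    refine QEQ_zero _ τ (12 * m) _ hτ (hα _ hlinv) fun n => ?_
    have z1 : |AV (τ n) (g n) A1| ≤ 4 * m / τ n :=
      hQZD (τ n) m (g n) aM _ A1 (Or.inl rfl) (hτ0 n) iu.1 iA1.1 (fun k => (hm0 k).trans e0)
        (fun k => (hm1 k).trans e1) dA1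
    have z2 : |AV (τ n) (g n) A2| ≤ 4 * m / τ n :=
      hQZD (τ n) m (g n) aM A1 A2 (Or.inl rfl) (hτ0 n) iA1.1 iA2.1 (fun k => (hm1 k).trans e1)
        (fun k => (hm2 k).trans e2) dA2
    have z3 : |AV (τ n) (g n) L2| ≤ 4 * m / τ n :=
      hQZD (τ n) m (g n) lM L1 L2 (Or.inr rfl) (hτ0 n) iL1.1 iL2.1 (fun k => (hm3 k).trans e3)
        (fun k => (hm4 k).trans e4) dL2
    have hsum : AV (τ n) (g n) (fun k => QU.lap (QU.conv κ f) (k • I)) =
        (-1) * ((AV (τ n) (g n) A2 + AV (τ n) (g n) A1) + AV (τ n) (g n) L2) := by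
      have hc : Continuous (fun k => A2 k + A1 k) := iA2.1.add iA1.1
      rw [← QEQ_add hGLC (τ n) (g n) iA2.1 iA1.1, ← QEQ_add hGLC (τ n) (g n) hc iL2.1, ← QEQ_mul]
      congr 1
      funext k
      linarith [hid k]
    rw [hsum, neg_one_mul, abs_neg]
    have z4 : |AV (τ n) (g n) A2 + AV (τ n) (g n) A1 + AV (τ n) (g n) L2| ≤
        4 * m / τ n + 4 * m / τ n + 4 * m / τ n :=
      (abs_add_le _ _).trans (add_le_add ((abs_add_le _ _).trans (add_le_add z2 z1)) z3)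
    have z5 : 4 * m / τ n + 4 * m / τ n + 4 * m / τ n = 12 * m / τ n := by ring
    linarith
  have hmain := QU.A_MEA Γ F α hΓ hF hBF hlap h hh
  rw [hα1, one_mul] at hmain
  obtain ⟨-, -, hv0, hv1, -⟩ := QU.A_DOB Γ F hΓ hF
  have hvol : 0 < (volume F).toReal := ENNReal.toReal_pos hv0.ne' hv1.ne
  have hle : (∫ z in F, h z) / (volume F).toReal + ε ≤ α h :=
    ge_of_tendsto (hα h hh) (Filter.Eventually.of_forall fun n => (hbig n).le)
  rw [← hmain, mul_div_assoc, div_self hvol.ne', mul_one] at hle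
  linarith

end Pool.Agent.RS
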